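import Pool.Agent.H37.CNS.Stmts

/-!
# Board `cns`, row CYU: covers with a cyclic quotient of order `p ^ 2`
-/

set_option autoImplicit false

namespace Pool.CND

open Finset

section

variable {k L : Type} [Field k] [Field L] [Algebra k L] (P : Place k L)

private theorem cyu_bound {x : L} (hx : x ≠ 0) (hlt : P.ord x < 0) (r : Polynomial k) (N : ℕ)
    (hN : r.natDegree ≤ N) : P.Ge (Polynomial.aeval x r) (N * P.ord x) := by
  rw [Polynomial.aeval_eq_sum_range]
  refine P.ge_sum _ _ _ fun i hi => ?_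
  have hi' : i ≤ N := by
    have := Finset.mem_range.1 hi
    omega
  rw [Algebra.smul_def]
  have h1 := P.ge_mul (P.ge_const (r.coeff i)) (Or.inr le_rfl : P.Ge (x ^ i) (P.ord (x ^ i)))
  rw [zero_add, P.ord_pow hx] at h1
  refine P.ge_mono h1 ?_
  have : (i : ℤ) ≤ N := by exact_mod_cast hi'
  nlinarith

/-- order of a polynomial at an element of negative order -/
private theorem cyu_aeval {x : L} (hx : x ≠ 0) (hlt : P.ord x < 0) (g : Polynomial k)
    (hg : 1 ≤ g.natDegree) :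
    Polynomial.aeval x g ≠ 0 ∧ P.ord (Polynomial.aeval x g) = g.natDegree * P.ord x := by
  have h1 := Polynomial.eraseLead_add_monomial_natDegree_leadingCoeff g
  have hl : g.leadingCoeff ≠ 0 := by
    intro h
    rw [Polynomial.leadingCoeff_eq_zero] at h
    rw [h, Polynomial.natDegree_zero] at hg
    omega
  have hl' : algebraMap k L g.leadingCoeff ≠ 0 := by
    rwa [Ne, map_eq_zero]
  have h2 : Polynomial.aeval x g =
      algebraMap k L g.leadingCoeff * x ^ g.natDegree + Polynomial.aeval x g.eraseLead := by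
    conv_lhs => rw [← h1]
    rw [map_add, Polynomial.aeval_monomial, add_comm]
  have h3 : P.ord (algebraMap k L g.leadingCoeff * x ^ g.natDegree) = g.natDegree * P.ord x := by
    rw [P.ord_mul _ _ hl' (pow_ne_zero _ hx), P.ord_const _ hl, P.ord_pow hx, zero_add]
  have h4 := cyu_bound P hx hlt g.eraseLead (g.natDegree - 1) (Polynomial.eraseLead_natDegree_le g)
  have h5 : P.Ge (Polynomial.aeval x g.eraseLead)
      (P.ord (algebraMap k L g.leadingCoeff * x ^ g.natDegree) + 1) := by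
    refine P.ge_mono h4 ?_
    rw [h3]
    have : ((g.natDegree - 1 : ℕ) : ℤ) = g.natDegree - 1 := by
      push_cast [hg]
      ring
    rw [this]
    nlinarith
  obtain ⟨h6, h7⟩ := P.ord_add_of_lt (mul_ne_zero hl' (pow_ne_zero _ hx)) h5
  rw [h2]
  exact ⟨h6, by rw [h7, h3]⟩

/-- order of a solution of `y ^ p - y = r` -/
private theorem cyu_as {y r : L} {p : ℕ} (hp : 2 ≤ p) (hr : r ≠ 0) (hlt : P.ord r < 0)
    (h : y ^ p - y = r) : y ≠ 0 ∧ (p : ℤ) * P.ord y = P.ord r := by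
  have hp' : (2 : ℤ) ≤ p := by exact_mod_cast hp
  have hy : y ≠ 0 := by
    intro hy
    rw [hy, zero_pow (by omega), sub_zero] at h
    exact hr h.symm
  refine ⟨hy, ?_⟩
  have hneg : P.ord y < 0 := by
    by_contra hc
    rw [not_lt] at hc
    have h1 : P.Ge (y ^ p) 0 := Or.inr (by rw [P.ord_pow hy]; positivity)
    have h2 : P.Ge (y ^ p - y) 0 := P.ge_sub h1 (Or.inr hc)
    rw [h] at h2
    have := (P.ge_iff hr 0).1 h2
    omega
  have h3 : P.Ge (-y) (P.ord (y ^ p) + 1) := by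
    refine P.ge_mono (P.ge_neg (P.ge_ord y)) ?_
    rw [P.ord_pow hy]
    nlinarith
  obtain ⟨h4, h5⟩ := P.ord_add_of_lt (pow_ne_zero p hy) h3
  rw [← sub_eq_add_neg, h, P.ord_pow hy] at h5
  exact h5.symm

end

/-! ### Depth functions on a cyclic group of order `p ^ 2` -/

section grp

variable {H : Type} [Group H] {b : H → ℤ}

private theorem cyu_pow (hb : UM b ⊤) {h : H} (h1 : h ≠ 1) (n : ℕ) (hn : h ^ n ≠ 1) :
    b h ≤ b (h ^ n) := by
  induction n with
  | zero => exact absurd (pow_zero h) hn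
  | succ n ih =>
    by_cases h2 : h ^ n = 1
    · rw [pow_succ, h2, one_mul]
    · have h3 := hb.mul (h ^ n) (Subgroup.mem_top _) h (Subgroup.mem_top _) h2 h1 (by
        rw [← pow_succ]
        exact hn)
      rw [← pow_succ] at h3
      have h4 := ih h2
      omega

variable [Finite H]

private theorem cyu_mem (hb : UM b ⊤) {h g : H} (hg : g ≠ 1) (hm : g ∈ Subgroup.zpowers h) :
    b h ≤ b g := by
  obtain ⟨n, rfl⟩ := (Submonoid.mem_powers_iff g h).1 (mem_powers_iff_mem_zpowers.2 hm)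
  refine cyu_pow hb ?_ n hg
  rintro rfl
  exact hg (one_pow n)

private theorem cyu_top {p : ℕ} {γ x : H} (hγ : orderOf γ = p ^ 2)
    (hc : Nat.card H = p ^ 2) (hx : γ⁻¹ * x ∈ Subgroup.zpowers (γ ^ p)) :
    γ ∈ Subgroup.zpowers x := by
  obtain ⟨m, hm⟩ := (Submonoid.mem_powers_iff _ _).1 (mem_powers_iff_mem_zpowers.2 hx)
  have h1 : x = γ ^ (1 + p * m) := by
    rw [pow_add, pow_one, pow_mul, hm]
    group
  have h2 : orderOf x = p ^ 2 := by
    rw [h1, Nat.Coprime.orderOf_pow, hγ]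
    rw [hγ]
    apply Nat.Coprime.pow_left
    rw [Nat.coprime_add_mul_left_right]
    exact Nat.coprime_one_right p
  have h3 : Subgroup.zpowers x = ⊤ := by
    apply Subgroup.eq_top_of_card_eq
    rw [Nat.card_zpowers, h2, hc]
  rw [h3]
  exact Subgroup.mem_top γ

private theorem cyu_sm_card {H : Type} [Fintype H] (T : Set H) :
    (open scoped Classical in (univ.filter (fun g => g ∈ T)).card) = T.ncard := by
  classical
  rw [Set.ncard_eq_toFinset_card']
  congr 1
  ext x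
  simp

private theorem cyu_sm_le {H : Type} [Fintype H] (b : H → ℤ) (T : Set H) (m : ℤ)
    (h : ∀ x ∈ T, b x ≤ m) : sm b T ≤ T.ncard * m := by
  classical
  rw [sm, ← cyu_sm_card T, ← nsmul_eq_mul]
  exact Finset.sum_le_card_nsmul _ _ _ fun x hx => h x (Finset.mem_filter.1 hx).2

private theorem cyu_sm_ge {H : Type} [Fintype H] (b : H → ℤ) (T : Set H) (m : ℤ)
    (h : ∀ x ∈ T, m ≤ b x) : T.ncard * m ≤ sm b T := by
  classical
  rw [sm, ← cyu_sm_card T, ← nsmul_eq_mul]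
  exact Finset.card_nsmul_le_sum _ _ _ fun x hx => h x (Finset.mem_filter.1 hx).2

private theorem cyu_sm_split {H : Type} [Fintype H] (b : H → ℤ) (S T : Set H) :
    sm b S = sm b (S ∩ T) + sm b (S \ T) := by
  classical
  rw [sm, sm, sm, ← Finset.sum_filter_add_sum_filter_not _ (fun g => g ∈ T), Finset.filter_filter,
    Finset.filter_filter]
  congr 1 <;> exact Finset.sum_congr (by ext x; simp) fun _ _ => rfl

/-- the computation -/
private theorem cyu_comb {H : Type} [Group H] [Fintype H] {b : H → ℤ} {p : ℕ} (hp : p.Prime)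
    (hb : UM b ⊤) {γ : H} (hγ : orderOf γ = p ^ 2) (hc : Nat.card H = p ^ 2) {D : ℕ}
    (hD : sm b {x | γ⁻¹ * x ∈ Subgroup.zpowers (γ ^ p)} =
      Nat.card (Subgroup.zpowers (γ ^ p)) * (D : ℤ))
    (h2 : ((p : ℤ) ^ 2 - p + 1) * b γ ≤ b (γ ^ p)) {l : ℤ} (hl : IsLst b ⊤ l) :
    (p : ℚ) * D ≤ U b ⊤ l := by
  classical
  set C := Subgroup.zpowers (γ ^ p) with hC
  have hp0 : (0 : ℤ) < p := by exact_mod_cast hp.pos
  have hγ1 : γ ≠ 1 := by
    rintro rfl
    rw [orderOf_one] at hγ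
    have := hp.one_lt
    nlinarith
  have hoC : orderOf (γ ^ p) = p := by
    rw [orderOf_pow_of_dvd hp.ne_zero (hγ ▸ dvd_pow_self p two_ne_zero), hγ, pow_two,
      Nat.mul_div_cancel _ hp.pos]
  have hγp : γ ^ p ≠ 1 := by
    intro h
    rw [h, orderOf_one] at hoC
    exact hp.one_lt.ne hoC
  have hcC : Nat.card C = p := by
    rw [hC, Nat.card_zpowers, hoC]
  have htop : Subgroup.zpowers γ = ⊤ := by
    apply Subgroup.eq_top_of_card_eq
    rw [Nat.card_zpowers, hγ, hc]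
  -- the coset
  have hCn : (C : Set H).ncard = p := by
    rw [← hcC]
    exact (Nat.card_coe_set_eq _).symm
  have hcos : ({x : H | γ⁻¹ * x ∈ C}).ncard = p := by
    have h3 : {x : H | γ⁻¹ * x ∈ C} = (fun c => γ * c) '' (C : Set H) := by
      ext x
      constructor
      · intro hx
        exact ⟨γ⁻¹ * x, hx, mul_inv_cancel_left γ x⟩
      · rintro ⟨c, hc', rfl⟩
        change γ⁻¹ * (γ * c) ∈ C
        rw [inv_mul_cancel_left]
        exact hc'
    rw [h3, Set.ncard_image_of_injective _ (mul_right_injective γ), hCn]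
  have hDb : (D : ℤ) ≤ b γ := by
    have h3 : sm b {x | γ⁻¹ * x ∈ C} ≤ p * b γ := by
      refine (cyu_sm_le b _ (b γ) fun x hx => ?_).trans_eq (by rw [hcos])
      exact cyu_mem hb hγ1 (cyu_top hγ hc hx)
    rw [hD, hcC] at h3
    exact le_of_mul_le_mul_left h3 hp0
  -- the sum over the group
  have hn1 : (({g : H | g ∈ (⊤ : Subgroup H) ∧ g ≠ 1} ∩ (C : Set H)).ncard : ℤ) = p - 1 := by
    have h3 : {g : H | g ∈ (⊤ : Subgroup H) ∧ g ≠ 1} ∩ (C : Set H) = (C : Set H) \ {1} := by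
      ext x
      constructor
      · rintro ⟨⟨-, h⟩, h'⟩
        exact ⟨h', h⟩
      · rintro ⟨h', h⟩
        exact ⟨⟨Subgroup.mem_top _, h⟩, h'⟩
    rw [h3, Set.ncard_sdiff_singleton_of_mem (one_mem C), hCn]
    have := hp.pos
    omega
  have hn2 : (({g : H | g ∈ (⊤ : Subgroup H) ∧ g ≠ 1} \ (C : Set H)).ncard : ℤ) = p ^ 2 - p := by
    have h3 : {g : H | g ∈ (⊤ : Subgroup H) ∧ g ≠ 1} \ (C : Set H) = (C : Set H)ᶜ := by
      ext x
      constructor
      · rintro ⟨-, h⟩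
        exact h
      · intro h
        refine ⟨⟨Subgroup.mem_top _, ?_⟩, h⟩
        rintro rfl
        exact h (one_mem C)
    have h4 := Set.ncard_add_ncard_compl (C : Set H)
    rw [hCn, hc] at h4
    rw [h3]
    have h5 : ((p + (C : Set H)ᶜ.ncard : ℕ) : ℤ) = ((p ^ 2 : ℕ) : ℤ) := by rw [h4]
    push_cast at h5
    linarith
  have hge : ((p : ℤ) ^ 2 - p) * b γ + (p - 1) * b (γ ^ p) ≤
      sm b {g | g ∈ (⊤ : Subgroup H) ∧ g ≠ 1} := by
    rw [cyu_sm_split b _ (C : Set H), ← hn1, ← hn2, add_comm]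
    refine add_le_add (cyu_sm_ge b _ _ fun x hx => ?_) (cyu_sm_ge b _ _ fun x hx => ?_)
    · exact cyu_mem hb hx.1.2 hx.2
    · refine cyu_mem hb hx.1.2 ?_
      rw [htop]
      exact Subgroup.mem_top x
  have hlp : b (γ ^ p) ≤ l := hl.le _ (Subgroup.mem_top _) hγp
  rw [U, Subgroup.card_top, hc]
  have hp2 : (0 : ℚ) < ((p ^ 2 : ℕ) : ℚ) := by
    have := pow_pos hp.pos 2
    exact_mod_cast this
  rw [le_div_iff₀ hp2]
  have h5 : ((p : ℤ) * D) * ((p ^ 2 : ℕ) : ℤ) ≤ l + sm b {g | g ∈ (⊤ : Subgroup H) ∧ g ≠ 1} := by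
    push_cast
    have h6 := mul_le_mul_of_nonneg_left h2 hp0.le
    have h7 : (p : ℤ) * D * p ^ 2 ≤ p * b γ * p ^ 2 :=
      mul_le_mul_of_nonneg_right (mul_le_mul_of_nonneg_left hDb hp0.le) (by positivity)
    nlinarith
  exact_mod_cast h5

end grp

theorem cyu_thm (h1 : S_CY2) (h2 : S_QU1) (h3 : S_QCC) (h4 : S_PTR) (h5 : S_INF) (h6 : S_HBX)
    (h7 : S_UMW) (h8 : S_CNV) : S_CYU := by
  intro p k L G _ _ _ _ _ _ _ ρ t P c y θ Y f hp hG hcov ht hc hy hθ hθs hyθ hY hact hf hpf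
  classical
  have : Fact p.Prime := ⟨hp⟩
  have hchar : CharP k p := inferInstance
  have : NeZero (p ^ 2) := ⟨pow_ne_zero 2 hp.ne_zero⟩
  have hp0 : (0 : ℤ) < p := by exact_mod_cast hp.pos
  -- the kernel
  have hθ1 : θ 1 = 0 := by
    have := hθ 1 1
    rw [mul_one] at this
    exact left_eq_add.1 this
  have hy1 : y 1 = 0 := by
    have := hy 1 1
    rw [mul_one] at this
    exact left_eq_add.1 this
  let Θ : G →* Multiplicative (ZMod (p ^ 2)) :=
    { toFun := fun g => Multiplicative.ofAdd (θ g)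
      map_one' := by rw [hθ1]; rfl
      map_mul' := fun g h => by rw [hθ]; rfl }
  have hΘs : Function.Surjective Θ := fun a => by
    obtain ⟨g, hg⟩ := hθs (Multiplicative.toAdd a)
    exact ⟨g, congrArg Multiplicative.ofAdd hg⟩
  set N : Subgroup G := Θ.ker with hN
  have hNmem : ∀ g : G, g ∈ N ↔ θ g = 0 := fun g => by
    rw [hN, MonoidHom.mem_ker]
    exact ⟨fun h => congrArg Multiplicative.toAdd h, fun h => congrArg Multiplicative.ofAdd h⟩
  let φ : G ⧸ N ≃* Multiplicative (ZMod (p ^ 2)) :=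
    QuotientGroup.quotientKerEquivOfSurjective Θ hΘs
  have hcardQ : Nat.card (G ⧸ N) = p ^ 2 := by
    rw [Nat.card_congr φ.toEquiv, Nat.card_eq_fintype_card, Fintype.card_multiplicative,
      ZMod.card]
  have hcomm : ∀ a b : G ⧸ N, a * b = b * a := fun a b => by
    apply φ.injective
    rw [map_mul, map_mul, mul_comm]
  obtain ⟨g₁, hg₁⟩ := hθs 1
  set γ : G ⧸ N := (g₁ : G ⧸ N) with hγdef
  have hφγ : φ γ = Multiplicative.ofAdd (1 : ZMod (p ^ 2)) := by
    change Θ g₁ = _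
    exact congrArg Multiplicative.ofAdd hg₁
  have hγo : orderOf γ = p ^ 2 := by
    rw [← MulEquiv.orderOf_eq φ γ, hφγ, orderOf_ofAdd_eq_addOrderOf, ZMod.addOrderOf_one]
  -- the quotient cover
  obtain ⟨E, ρ', t', hE, ht', hρ', hcov'⟩ := h2 k L G ρ t N hcov
  have hquo : Quo ρ ρ' (QuotientGroup.mk' N) E.val := by
    refine ⟨QuotientGroup.mk'_surjective N, fun g z => ?_, fun z hz => ?_⟩
    · exact (hρ' g z).symm
    · have hzE : z ∈ E := (hE z).2 fun n hn =>
        hz n ((QuotientGroup.eq_one_iff n).2 hn)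
      exact ⟨⟨z, hzE⟩, rfl⟩
  have hcov2 : IsCover ρ (E.val t') := by
    change IsCover ρ (t' : L)
    rw [ht']
    exact hcov
  obtain ⟨P₁, e, he, hord, hle, -⟩ := h3 p k L E G (G ⧸ N) ρ ρ' (QuotientGroup.mk' N) E.val t' P c
    hp hchar hG hcov2 hcov' hquo hc
  have he0 : (0 : ℤ) < e := by exact_mod_cast he
  have ht0 : t' ≠ 0 := by
    rintro rfl
    exact hcov'.trans (isAlgebraic_zero)
  have ht'neg : P₁.ord t' < 0 := by
    have h9 := hord t' ht0
    have h10 : E.val t' = t := ht'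
    rw [h10] at h9
    by_contra hcon
    rw [not_lt] at hcon
    have := mul_nonneg he0.le hcon
    omega
  have hram1 : ram P₁ ρ' 1 = Set.univ := h4 p k E (G ⧸ N) ρ' t' P₁ hp hchar ⟨2, hcardQ⟩ hcov' ht'neg
  have hram0 : ram P₁ ρ' 0 = Set.univ := by
    apply Set.eq_univ_of_forall
    intro g
    have hg : g ∈ ram P₁ ρ' 1 := by rw [hram1]; exact Set.mem_univ g
    refine ⟨hg.1, fun u hu hu1 => (hg.2 u hu hu1).imp id fun h => ?_⟩
    push_cast at h ⊢
    omega
  have hordt : P₁.ord t' = -((p ^ 2 : ℕ) : ℤ) := by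
    have h9 := h5 k E (G ⧸ N) ρ' t' P₁ ⊤ hcov' ht'neg (by rw [hram0]; rfl)
    rw [h9, Subgroup.card_top, hcardQ]
  -- the generator
  have hYE : Y ∈ E := by
    rw [hE]
    intro n hn
    have h9 : y n = 0 := by
      rw [hyθ, (hNmem n).1 hn, mul_zero]
    rw [hact, h9, fp, map_zero, map_zero, add_zero]
  set Y' : E := ⟨Y, hYE⟩ with hY'def
  have hY' : Y' ^ p - Y' = Polynomial.aeval t' f := by
    apply Subtype.ext
    have h9 : ((Polynomial.aeval t' f : E) : L) = Polynomial.aeval (t' : L) f :=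
      (Polynomial.aeval_algHom_apply E.val t' f).symm
    rw [h9, ht', ← hY]
    rfl
  obtain ⟨hfa, hfo⟩ := cyu_aeval P₁ ht0 ht'neg f hf
  have hf1 : (0 : ℤ) < f.natDegree := by exact_mod_cast hf
  have hfneg : P₁.ord (Polynomial.aeval t' f) < 0 := by
    rw [hfo]
    nlinarith
  obtain ⟨hY0, hYo⟩ := cyu_as P₁ hp.two_le hfa hfneg hY'
  have hYord : P₁.ord Y' = -((f.natDegree * p : ℕ) : ℤ) := by
    rw [hfo, hordt] at hYo
    push_cast at hYo ⊢
    have h9 : (p : ℤ) * P₁.ord Y' = p * (-(f.natDegree * p)) := by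
      rw [hYo]
      ring
    exact mul_left_cancel₀ hp0.ne' h9
  have hact' : ∀ (g : G), ρ' (g : G ⧸ N) Y' = Y' + algebraMap k E (fp k (y g)) := fun g => by
    apply Subtype.ext
    rw [hρ']
    change ρ g Y = Y + _
    rw [hact]
    rfl
  have hypow : ∀ (g : G) (n : ℕ), y (g ^ n) = n * y g := fun g n => by
    induction n with
    | zero => rw [pow_zero, hy1, Nat.cast_zero, zero_mul]
    | succ n ih => rw [pow_succ, hy, ih, Nat.cast_succ, add_mul, one_mul]
  -- the subgroup of order `p`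
  have hfixp : ρ' (γ ^ p) Y' = Y' := by
    have h9 : γ ^ p = ((g₁ ^ p : G) : G ⧸ N) := rfl
    rw [h9, hact', hypow, CharP.cast_eq_zero, zero_mul, fp, map_zero, map_zero, add_zero]
  have hfix : ∀ n ∈ Subgroup.zpowers (γ ^ p), ρ' n Y' = Y' := by
    intro n hn
    obtain ⟨m, rfl⟩ := (Submonoid.mem_powers_iff n _).1 (mem_powers_iff_mem_zpowers.2 hn)
    rw [map_pow]
    induction m with
    | zero => rw [pow_zero]; rfl
    | succ m ih =>
      rw [pow_succ]
      change (ρ' (γ ^ p) ^ m) (ρ' (γ ^ p) Y') = Y'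
      rw [hfixp]
      exact ih (Subgroup.pow_mem _ (Subgroup.mem_zpowers _) m)
  have hyg : y g₁ ≠ 0 := by
    intro h
    rw [hyθ, hg₁, mul_one] at h
    have h9 : ((p : ℕ) : ZMod (p ^ 2)) = 0 := h
    rw [ZMod.natCast_eq_zero_iff] at h9
    have h10 := Nat.le_of_dvd hp.pos h9
    have := hp.one_lt
    nlinarith
  have hc0 : fp k (y g₁) ≠ 0 := by
    intro h
    rw [fp, map_eq_zero] at h
    exact hyg h
  have hcardC : Nat.card (Subgroup.zpowers (γ ^ p)) = p := by
    rw [Nat.card_zpowers, orderOf_pow_of_dvd hp.ne_zero (by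
      rw [hγo]
      exact dvd_pow_self p two_ne_zero), hγo, pow_two, Nat.mul_div_cancel _ hp.pos]
  have hγC : γ ∉ Subgroup.zpowers (γ ^ p) := by
    intro h
    have h9 := Subgroup.orderOf_dvd_natCard _ h
    rw [hcardC, hγo] at h9
    have h10 := Nat.le_of_dvd hp.pos h9
    have := hp.one_lt
    nlinarith
  have : Fintype (G ⧸ N) := Fintype.ofFinite _
  have hHB := h6 p k E (G ⧸ N) P₁ ρ' (Subgroup.zpowers (γ ^ p)) ⊤ γ Y' (fp k (y g₁)) f.natDegree hp
    hchar hcov'.inj le_top (fun g _ => by rw [hram1]; exact Set.mem_univ g)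
    (fun g _ n hn => by rw [hcomm g n, mul_inv_cancel_right]; exact hn) (Subgroup.mem_top _) hγC
    hfix hY0 hc0 (hact' g₁) (by rw [hYord, hcardC]) hpf hf
  have hUM := h7 k E (G ⧸ N) P₁ ρ' ⊤ hcov'.inj (by rw [hram1]; rfl)
  have hγfix : Fixes P₁ (ρ' γ) := by
    have h9 : γ ∈ ram P₁ ρ' 0 := by rw [hram0]; exact Set.mem_univ γ
    exact h9.1
  have hcy := h1 p k E P₁ (ρ' γ) hp hchar hγfix (by
    rw [orderOf_injective ρ' hcov'.inj, hγo])
  rw [← map_pow] at hcy
  -- the last value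
  have hγ1 : γ ≠ 1 := by
    intro h
    rw [h, orderOf_one] at hγo
    have := hp.one_lt
    nlinarith
  obtain ⟨g₀, hg₀, hmax⟩ := Finset.exists_max_image (univ.filter fun g : G ⧸ N => g ≠ 1)
    (fun g => P₁.b (ρ' g)) ⟨γ, Finset.mem_filter.2 ⟨Finset.mem_univ _, hγ1⟩⟩
  have hlst : IsLst (fun g => P₁.b (ρ' g)) (⊤ : Subgroup (G ⧸ N)) (P₁.b (ρ' g₀)) := by
    refine ⟨⟨g₀, Subgroup.mem_top _, (Finset.mem_filter.1 hg₀).2, rfl⟩, fun g _ hg => ?_⟩
    exact hmax g (Finset.mem_filter.2 ⟨Finset.mem_univ _, hg⟩)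
  have hcon := h8 k E (G ⧸ N) P₁ ρ' ⊤ ⊤ (P₁.b (ρ' g₀)) hcov'.inj (by rw [hram1]; rfl)
    (by rw [hram0]; rfl) hlst
  have h9 := hle _ hcon
  have h10 := cyu_comb hp hUM hγo hcardQ hHB hcy hlst
  refine h10.trans (le_trans (le_of_eq ?_) h9)
  have h11 : (Nat.card (⊤ : Subgroup (G ⧸ N)) : ℚ) ≠ 0 := by
    rw [Subgroup.card_top, hcardQ]
    exact_mod_cast pow_ne_zero 2 hp.ne_zero
  rw [mul_div_assoc, mul_comm, div_mul_cancel₀ _ h11]

end Pool.CND
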