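import Pool.Agent.H37.CNS.Stmts

/-!
# Board `cns`, row TRB: elements of trace `1` for an automorphism of order `p`
-/

set_option autoImplicit false

namespace Pool.CND

open Finset

private theorem trb_poly (p : ℕ) (k : Type) [Field k] [CharP k p] (hp : p.Prime) :
    ((Polynomial.X : Polynomial k) - 1) ^ (p - 1) = ∑ j ∈ range p, Polynomial.X ^ j := by
  have := Fact.mk hp
  have h1 : ((Polynomial.X : Polynomial k) - 1) ^ (p - 1) * (Polynomial.X - 1) =
      (∑ j ∈ range p, Polynomial.X ^ j) * (Polynomial.X - 1) := by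
    rw [← pow_succ, Nat.sub_add_cancel hp.one_le, sub_pow_char, geom_sum_mul, one_pow]
  have h2 : (Polynomial.X : Polynomial k) - 1 ≠ 0 := by
    rw [← Polynomial.C_1]
    exact Polynomial.X_sub_C_ne_zero 1
  exact mul_right_cancel₀ h2 h1

theorem trb_thm (hLON : S_LON) (hINJ : S_INJ) : S_TRB := by
  intro p k L _ _ _ P γ w hp hchar hfix hord hb hsum
  have hγ : γ ≠ 1 := by
    rintro rfl
    rw [orderOf_one] at hord
    exact hp.one_lt.ne hord
  have hu : γ P.pi ≠ P.pi := fun h => hγ (hINJ k L P γ P.pi hfix P.pi_ne P.ord_pi h)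
  have hlon : ∀ (x : L) (m : ℤ), P.Ge x m → P.Ge (γ x - x) (m + P.b γ) := by
    intro x m hx
    by_cases h0 : x = 0
    · rw [h0, map_zero, sub_zero]
      exact P.ge_zero _
    · have h1 : P.Ge (γ P.pi - P.pi) (P.b γ + 1) := by
        refine (P.ge_iff (sub_ne_zero.2 hu) _).2 ?_
        unfold Place.b
        omega
      have h2 := hLON k L P γ P.pi (P.b γ) hfix P.pi_ne P.ord_pi (by omega) h1 x
      have h3 := (P.ge_iff h0 m).1 hx
      rcases h2 with h2 | h2
      · exact P.ge_mono h2 (by omega)
      · exact absurd h2 h0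
  have hiter : ∀ n : ℕ, P.Ge ((((γ.toLinearMap - 1 : Module.End k L)) ^ n) w)
      (P.ord w + n * P.b γ) := by
    intro n
    induction n with
    | zero =>
      rw [pow_zero, Nat.cast_zero, zero_mul, add_zero]
      exact P.ge_ord w
    | succ n ih =>
      rw [pow_succ', Module.End.mul_apply]
      have h1 := hlon _ _ ih
      have h2 : (γ.toLinearMap - 1 : Module.End k L) ((((γ.toLinearMap - 1 : Module.End k L)) ^ n) w) =
          γ ((((γ.toLinearMap - 1 : Module.End k L)) ^ n) w) -
            (((γ.toLinearMap - 1 : Module.End k L)) ^ n) w := rfl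
      rw [h2]
      refine P.ge_mono h1 (le_of_eq ?_)
      push_cast
      ring
  have htr : (((γ.toLinearMap - 1 : Module.End k L)) ^ (p - 1)) w = 1 := by
    have h1 := congrArg (Polynomial.aeval (γ.toLinearMap : Module.End k L)) (trb_poly p k hp)
    rw [map_pow, map_sub, Polynomial.aeval_X, map_one, map_sum] at h1
    rw [h1, ← hsum, LinearMap.sum_apply]
    refine sum_congr rfl fun j hj => ?_
    rw [map_pow, Polynomial.aeval_X]
    clear h1 hsum hiter hlon hu hj
    induction j with
    | zero => rfl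
    | succ j ih =>
      rw [pow_succ', pow_succ', Module.End.mul_apply, ih]
      rfl
  have h1 := hiter (p - 1)
  rw [htr, P.ge_iff one_ne_zero, P.ord_one] at h1
  have h2 : ((p - 1 : ℕ) : ℤ) = (p : ℤ) - 1 := by
    have := hp.one_le
    omega
  rw [h2] at h1
  linarith

end Pool.CND
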